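import Mathlib
import Pool.Agent.MP_89350a_an.Defs
import Pool.Agent.Mg.F5cfbf6.G8b6e9a

open TopologicalSpace Topology

namespace Pool.Agent.Results.MP_89350a_an.ContinuousDenseIndependent

open Pool.Agent.MP_89350a_an

/-- For a separable Banach space `E` over `𝕜 = ℝ` or `ℂ` (the question is the case `E = C(Δ)`),
`ClosedSubmodule 𝕜 E` is the set `SB` of closed linear subspaces of `E`. -/
theorem result (𝕜 : Type) [RCLike 𝕜] (E : Type) [NormedAddCommGroup E] [NormedSpace 𝕜 E]
    [CompleteSpace E] [SeparableSpace E] :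
    ∃ τ : TopologicalSpace (ClosedSubmodule 𝕜 E),
      IsAdmissible τ ∧
      IsClosed[@instTopologicalSpaceProd E _ inferInstance τ]
        {p : E × ClosedSubmodule 𝕜 E | p.1 ∈ p.2} ∧
      ∃ h : ℕ → ClosedSubmodule 𝕜 E → E,
        (∀ i, Continuous[τ, inferInstance] (h i)) ∧
        (∀ X : ClosedSubmodule 𝕜 E, (X : Set E) = closure (Set.range fun i => h i X)) ∧
        ∀ X : ClosedSubmodule 𝕜 E, ¬ FiniteDimensional 𝕜 X.toSubmodule →
          LinearIndependent 𝕜 fun i => h i X :=
  exists_admissible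

end Pool.Agent.Results.MP_89350a_an.ContinuousDenseIndependent
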