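import Mathlib
import Pool.Agent.MP_89350a_an.Defs
import Pool.Agent.MP_89350a_an.WDefs
import Pool.Agent.Mg.F5cfbf6.Gaf80b5

namespace Pool.Agent.Results.MP_89350a_an.WijsmanNo

open Pool.Agent.MP_89350a_an

/-- For a Cantor space `Δ` and `𝕜 = ℝ` or `ℂ`, the Wijsman topology on the closed subspaces of
`C(Δ, 𝕜)` is admissible, but there is no map choosing a non-zero vector in every
infinite-dimensional closed subspace that is continuous on the infinite-dimensional subspaces. -/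
theorem result (𝕜 : Type) [RCLike 𝕜] (Δ : Type) [TopologicalSpace Δ] [CompactSpace Δ]
    (e : Δ ≃ₜ (ℕ → Bool)) :
    IsAdmissible (wijsman 𝕜 C(Δ, 𝕜)) ∧
    ¬ ∃ h : ClosedSubmodule 𝕜 C(Δ, 𝕜) → C(Δ, 𝕜),
      @ContinuousOn _ _ (wijsman 𝕜 C(Δ, 𝕜)) _ h {X | ¬ FiniteDimensional 𝕜 X.toSubmodule} ∧
      ∀ X : ClosedSubmodule 𝕜 C(Δ, 𝕜), ¬ FiniteDimensional 𝕜 X.toSubmodule →
        h X ∈ X ∧ h X ≠ 0 := by
  have : SecondCountableTopology Δ := e.secondCountableTopology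
  have : T2Space Δ := e.symm.t2Space
  obtain ⟨C⟩ := exists_cells e (ℕ × (Fin 2 ⊕ ℕ))
  exact ⟨isAdmissible_wijsman, no_selection C⟩

end Pool.Agent.Results.MP_89350a_an.WijsmanNo
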